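import Pool.Agent.helper33.PG.Spec

namespace Pool.Agent.PG

open Polynomial Finset

theorem NON (hDET : DET_stmt) : NON_stmt := by
  intro r q k n a b hb ha h1 h2
  obtain ⟨c, hc, hd⟩ := hDET q a b hb ha
  set x : ℤ := -((k : ℤ) * 2 ^ n) with hx
  unfold W at h1 h2
  rw [← hx] at h1 h2
  have he := congrArg (fun p : ℤ[X] => p.eval x) hd
  simp only [eval_sub, eval_mul, eval_C, eval_pow, eval_X, eval_one] at he
  have hx1 : x - 1 ≠ 0 := by
    have : (0 : ℤ) ≤ (k : ℤ) * 2 ^ n := by positivity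
    omega
  have hne : c * (x - 1) ^ (a + b + 1) ≠ 0 := mul_ne_zero hc (pow_ne_zero _ hx1)
  apply hne
  rw [← he]
  have h2r : (2 : ℤ) ^ r ≠ 0 := by positivity
  apply mul_left_cancel₀ h2r
  have e1 : (2 : ℤ) ^ r * (A q a b).eval x = (-1) ^ q * (k : ℤ) ^ q * (B q a b).eval x := by
    linarith
  have e2 : (2 : ℤ) ^ r * (A q (a + 1) (b - 1)).eval x =
      (-1) ^ q * (k : ℤ) ^ q * (B q (a + 1) (b - 1)).eval x := by
    linarith
  calc (2 : ℤ) ^ r * ((A q a b).eval x * (B q (a + 1) (b - 1)).eval x -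
        (A q (a + 1) (b - 1)).eval x * (B q a b).eval x)
      = (2 ^ r * (A q a b).eval x) * (B q (a + 1) (b - 1)).eval x -
        (2 ^ r * (A q (a + 1) (b - 1)).eval x) * (B q a b).eval x := by ring
    _ = 2 ^ r * 0 := by rw [e1, e2]; ring

end Pool.Agent.PG
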