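import Pool.Agent.helper33.PG.Spec
import Pool.Agent.helper11.PG.FDZ
import Pool.Agent.helper97.PG.COF
import Pool.Agent.helper54.PG.MID
import Pool.Agent.helper72.PG.LDA
import Pool.Agent.helper52.PG.TOP
import Pool.Agent.helper11.PG.VDM
import Pool.Agent.helper34.PG.LON
import Pool.Agent.helper79.PG.DEC
import Pool.Agent.helper68.PG.DET
import Pool.Agent.helper72.PG.EVA
import Pool.Agent.helper11.PG.CONW
import Pool.Agent.helper33.PG.NON
import Pool.Agent.helper28.PG.KEY
import Pool.Agent.helper58.PG.MNB
import Pool.Agent.helper55.PG.GEN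
import Pool.Agent.helper78.PG.SHP
import Pool.Agent.helper57.PG.EXQ
import Pool.Agent.helper2.PG.PRD

/-! Assembly of project PG. -/

namespace Pool.Agent.PG

theorem all_MID : MID_stmt := MID FDZ COF
theorem all_LDA : LDA_stmt := LDA FDZ COF
theorem all_DEC : DEC_stmt := DEC all_MID TOP
theorem all_DET : DET_stmt := DET all_DEC all_LDA TOP
theorem all_LON : LON_stmt := LON COF VDM
theorem all_EVA : EVA_stmt := EVA all_LON
theorem all_CON : CON_stmt := CON all_DEC
theorem all_NON : NON_stmt := NON all_DET
theorem all_KEY : KEY_stmt := KEY all_CON all_NON all_EVA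
theorem all_MNB : MNB_stmt := MNB all_KEY
theorem all_GEN : GEN_stmt := GEN all_MNB
theorem all_EXQ : EXQ_stmt := EXQ all_GEN SHP
theorem all_PRD : PRD_stmt := PRD all_EXQ

end Pool.Agent.PG
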