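import Mathlib

/-!
# Project PG: multiplicities of the divisors of 2^N + 1 (MP_37e5fa_nt, MP_a70bdc_nt)

THEOREM. Let `D = k * 2^n + 1` (`k, n >= 1`), `D^e ∣ 2^N + 1`, `N = q n + r`, `0 <= r < n`. Then
`D^(e-1) <= 2^(r+2) * (2^e * C(2q, e))^2 * k^q`.

IDEA. `2^r (D-1)^q = 2^r k^q 2^(nq) = k^q 2^N = - k^q` modulo `D^e`. With `x = 1 - D = - k 2^n` and
the Pade approximants `A(x) + x^q B(x) = S(x)`, `(1-x)^e ∣ S(x)`, `deg A = a`, `deg B = b`,
`a + b + 1 = e`, the integer `W = 2^r A(x) - (-1)^q k^q B(x)` is divisible by `D^e` and small.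
Two neighbouring approximants have the determinant `c (x-1)^e`, `c` not zero, so one of the two
integers `W` is not zero.

Numerically checked (q <= 11, all a, b; and the final inequalities).

Every row: file `Pool/Agent/<seat>/PG/XXX.lean`, `import Pool.Agent.helper33.PG.Spec`,
`namespace Pool.Agent.PG`, `theorem XXX (hypotheses: other rows) : XXX_stmt`,
names of auxiliary lemmas start with `XXX_`.
-/

namespace Pool.Agent.PG

open Polynomial Finset

/-- Coefficients of the cofactor: `C(b+j, b) * C(q-1-j, a)` (used for `j < q - a`). -/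
def gco (q a b j : ℕ) : ℤ := ((b + j).choose b : ℤ) * ((q - 1 - j).choose a : ℤ)

/-- The cofactor. -/
noncomputable def G (q a b : ℕ) : ℤ[X] := ∑ j ∈ range (q - a), C (gco q a b j) * X ^ j

/-- `S = (1 - X)^(a+b+1) * G`; all its coefficients between `a` and `q` vanish. -/
noncomputable def S (q a b : ℕ) : ℤ[X] := (1 - X) ^ (a + b + 1) * G q a b

/-- The low part of `S`. -/
noncomputable def A (q a b : ℕ) : ℤ[X] := ∑ j ∈ range (a + 1), C ((S q a b).coeff j) * X ^ j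

/-- The high part of `S`: `S = A + X^q * B`. -/
noncomputable def B (q a b : ℕ) : ℤ[X] :=
  ∑ l ∈ range (b + 1), C ((S q a b).coeff (q + l)) * X ^ l

/-- The bound for the sum of the absolute values of the coefficients. -/
def Lc (q a b : ℕ) : ℤ := 2 ^ (a + b + 1) * ((q + b).choose (a + b + 1) : ℤ)

/-- FDZ (short; Mathlib only). The `M`-th difference of a polynomial of degree `< M` is zero.
PROOF. Mathlib: forward differences (`fwdDiff_iter_eq_sum_shift`, `fwdDiff_iter_pow_lt` or similar in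
Mathlib.Algebra.Group.ForwardDiff), reflect `i -> M - i`, `y = x - M`, step 1, and linearity over the
monomials of `f`. Or induction on `M`: for `M = 0` the polynomial is zero. Step: `f(X) - f(X-1)` has
degree `< M` if `f` has degree `< M + 1`, and
`sum_{i <= M+1} (-1)^i C(M+1, i) f(x-i) = sum_{i <= M} (-1)^i C(M,i) (f(x-i) - f(x-i-1))`. -/
def FDZ_stmt : Prop :=
  ∀ (M : ℕ) (f : ℤ[X]), f.degree < M → ∀ x : ℤ,
    ∑ i ∈ range (M + 1), (-1) ^ i * (M.choose i : ℤ) * f.eval (x - i) = 0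

/-- COF (short; Mathlib only). Coefficients of `S`: for all `j`,
`coeff_j S = sum_{i <= a+b+1, i <= j, j - i < q - a} (-1)^i C(a+b+1, i) gco(j-i)`.
PROOF. `(1-X)^M = sum_i C(M,i) (-X)^i` (`sub_pow` / `add_pow`), coefficient of a product
(`Polynomial.coeff_mul`, antidiagonal) or `coeff_mul_X_pow'`-type lemmas after expanding both sums. -/
def COF_stmt : Prop :=
  ∀ q a b j : ℕ, (S q a b).coeff j =
    ∑ i ∈ range (a + b + 2), if i ≤ j ∧ j - i < q - a then
      (-1) ^ i * ((a + b + 1).choose i : ℤ) * gco q a b (j - i) else 0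

/-- MID (medium). The middle coefficients vanish.
PROOF. Let `M = a+b+1`, `h(T) = prod_{s=1..b} (T + s) * prod_{s=1..a} (q - T - s)` in `ℤ[T]`, of
degree `<= a + b < M`. For integers `0 <= t <= q-1`: `h(t) = a! b! gco(t)` (both sides are zero for
`q - a <= t <= q - 1`), and `h(t) = 0` for `-b <= t <= -1`. By FDZ at `x = j`:
`sum_{i<=M} (-1)^i C(M,i) h(j-i) = 0`. Here `j - i <= j <= q-1` and `j - i >= j - M >= -b` because
`j >= a+1`. So the terms with `i > j` are zero, those with `q - a <= j - i` are zero, and the sum is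
`a! b!` times the sum of COF. Divide by `a! b! <> 0`. -/
def MID_stmt : Prop :=
  ∀ q a b j : ℕ, a < j → j < q → (S q a b).coeff j = 0

/-- LDA (medium; same hand as MID). The coefficient of `X^a`.
PROOF. As in MID with `j = a`: now `i` runs to `M` with `a - M = -b-1`, and the only new non zero term
is `i = M`: `(-1)^M h(-b-1)`, `h(-b-1) = (-1)^b b! * (q+b)!/(q+b-a)! = (-1)^b b! a! C(q+b,a)`. Hence
`coeff_a S = - (-1)^(M+b) C(q+b,a) = (-1)^a C(q+b,a)`. -/
def LDA_stmt : Prop :=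
  ∀ q a b : ℕ, a < q → (S q a b).coeff a = (-1) ^ a * ((q + b).choose a : ℤ)

/-- TOP (short; Mathlib only). Degree and leading coefficient.
PROOF. `G` has degree `<= q-a-1` with coefficient `C(q-1-a+b, b) * C(a,a) > 0` there;
`(1-X)^M` has degree `M` and leading coefficient `(-1)^M`; `M + (q-a-1) = q+b`
(`coeff_mul_of_natDegree_le`, or COF with `j = q+b`: only `i = M` contributes). -/
def TOP_stmt : Prop :=
  ∀ q a b : ℕ, a < q → (S q a b).natDegree ≤ q + b ∧ (S q a b).coeff (q + b) ≠ 0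

/-- VDM (short; Mathlib only). `sum_{j < q-a} C(b+j, b) C(q-1-j, a) = C(q+b, a+b+1)`.
PROOF. Induction on `q`, or on `a`, or Mathlib's hockey stick / Vandermonde type lemmas. (Induction on
`q` for all `a` at once: Pascal for `C(q-1-j, a)`; the terms with `j >= q-a` are zero so the range may
be extended to `q`.) -/
def VDM_stmt : Prop :=
  ∀ q a b : ℕ, a < q →
    ∑ j ∈ range (q - a), (b + j).choose b * (q - 1 - j).choose a = (q + b).choose (a + b + 1)

/-- LON (short-medium). The sum of the absolute values of the coefficients of `S`.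
PROOF. By COF `|coeff_j S| <= sum_i C(M,i) [i <= j, j-i < q-a] gco(j-i)`. Sum over `j`, exchange the
sums: `<= sum_i C(M,i) * sum_{t < q-a} gco(t) = 2^M * C(q+b, a+b+1)` by VDM and `Nat.sum_range_choose`.
(Alternative: for a polynomial `P` with non negative coefficients and `|f_j| <= P_j` evaluate at 1.) -/
def LON_stmt : Prop :=
  ∀ q a b : ℕ, a < q → ∑ j ∈ range (q + b + 1), |(S q a b).coeff j| ≤ Lc q a b

/-- DEC (short). `S = A + X^q B`.
PROOF. Compare coefficients of `X^j`: `j <= a`, `a < j < q` (MID), `q <= j <= q+b`, `j > q+b` (TOP: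
degree at most `q+b`). Note `a < q`. -/
def DEC_stmt : Prop :=
  ∀ q a b : ℕ, a < q → S q a b = A q a b + X ^ q * B q a b

/-- DET (medium). The determinant of two neighbours.
PROOF. Put `S1 = S q a b, S2 = S q (a+1) (b-1)`, both divisible by `(1-X)^M`, `M = a+b+1` (definition
of `S`; `(a+1)+(b-1)+1 = M`). By DEC `A1 B2 - A2 B1 = S1 B2 - S2 B1`, so it is divisible by
`(1-X)^M`, i.e. by the monic `(X-1)^M`. The degree of `A1 B2` is `<= a + b - 1 < M` and that of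
`A2 B1` is `<= (a+1) + b = M` with coefficient `coeff_(a+1) S2 * coeff_(q+b) S1` at `X^M`, not zero by
LDA (for `(a+1, b-1)`, `a+1 < q`) and TOP (for `(a,b)`). A polynomial of degree `<= M` divisible by the
monic polynomial `(X-1)^M` of degree `M` is a constant times it; the constant is the coefficient of
`X^M`, which is minus the product above. -/
def DET_stmt : Prop :=
  ∀ q a b : ℕ, 1 ≤ b → a + 1 < q → ∃ c : ℤ, c ≠ 0 ∧
    A q a b * B q (a + 1) (b - 1) - A q (a + 1) (b - 1) * B q a b = C c * (X - 1) ^ (a + b + 1)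

/-- EVA (short). Sizes of the values. PROOF. `|x| >= 1`, so `|x|^j <= |x|^a` for `j <= a`; the sum of
the absolute values of the coefficients of `A` (of `B`) is at most that of `S`, hence `<= Lc` (LON). -/
def EVA_stmt : Prop :=
  ∀ (q a b : ℕ) (x : ℤ), a < q → x ≠ 0 →
    |(A q a b).eval x| ≤ Lc q a b * |x| ^ a ∧ |(B q a b).eval x| ≤ Lc q a b * |x| ^ b

/-- The integer `W`. -/
noncomputable def W (r q k n a b : ℕ) : ℤ :=
  2 ^ r * (A q a b).eval (-((k : ℤ) * 2 ^ n)) -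
    (-1) ^ q * (k : ℤ) ^ q * (B q a b).eval (-((k : ℤ) * 2 ^ n))

/-- CON (short). `D^e` divides `W`. PROOF. `x = -k 2^n`, `1 - x = D`. `S(x) = D^e G(x)` (definition),
`S(x) = A(x) + x^q B(x)` (DEC). `2^r x^q = (-1)^q k^q 2^(nq+r) = (-1)^q k^q 2^N`, so
`2^r S(x) = 2^r A(x) + (-1)^q k^q 2^N B(x) = W + (-1)^q k^q (2^N + 1) B(x)`. -/
def CON_stmt : Prop :=
  ∀ N n k q r e a b : ℕ, N = q * n + r → (k * 2 ^ n + 1) ^ e ∣ 2 ^ N + 1 → a + b + 1 = e → a < q →
    ((k : ℤ) * 2 ^ n + 1) ^ e ∣ W r q k n a b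

/-- NON (short). One of two neighbouring `W` is not zero. PROOF. If both are zero then
`2^r A_i(x) = (-1)^q k^q B_i(x)` for `i = 1, 2`, so
`2^r (A1 B2 - A2 B1)(x) = (-1)^q k^q (B1 B2 - B2 B1) = 0`, but by DET it is `2^r c (x-1)^M` with
`x - 1 = -D <> 0`. -/
def NON_stmt : Prop :=
  ∀ r q k n a b : ℕ, 1 ≤ b → a + 1 < q → W r q k n a b = 0 → W r q k n (a + 1) (b - 1) = 0 → False

/-- KEY (short-medium). PROOF. Put `a = e - 1 - b`, so `a + b + 1 = e`, `a + 1 = e - b < q`. By CON `D^e` divides both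
`W = W(a,b)` and `W' = W(a+1,b-1)`, by NON one of them is not zero, so `D^e <= |W|` or `D^e <= |W'|`.
By EVA with `|x| = k 2^n < D`, `x <> 0`:
`|W| <= Lc(a,b) (2^r D^a + k^q D^b)`, `|W'| <= Lc(a+1,b-1) (2^r D^(a+1) + k^q D^(b-1))`, and
`Lc <= 2^e C(q+b, e) <= 2^e C(2q, e)` because `b <= e <= q` (`Nat.choose_le_choose`). Both are at most the right side. -/
def KEY_stmt : Prop :=
  ∀ N n k q r e b : ℕ, 0 < k → N = q * n + r → (k * 2 ^ n + 1) ^ e ∣ 2 ^ N + 1 →
    1 ≤ b → b < e → e ≤ q →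
    (k * 2 ^ n + 1) ^ e ≤
      2 ^ e * (2 * q).choose e * (2 ^ r * (k * 2 ^ n + 1) ^ (e - b) + k ^ q * (k * 2 ^ n + 1) ^ b)

/-- MNB (short). PROOF. `D = k 2^n + 1 >= 2`, `c = 2^e C(2q, e) >= 1`. For `1 <= b < e` KEY gives
`D^e <= 2 c 2^r D^(e-b)` or `D^e <= 2 c k^q D^b`, i.e. `D^b <= 2^(r+1) c` or `D^(e-b) <= 2 c k^q`.
Let `b` be the least natural number with `D^b > 2^(r+1) c` (it exists, `b >= 1`), so
`D^(b-1) <= 2^(r+1) c`. If `b >= e`: `D^(e-1) <= D^(b-1) <= 2^(r+1) c <=` right side (`k >= 1`).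
If `b < e`: `D^(e-b) <= 2 c k^q`, hence `D^(e-1) = D^(b-1) D^(e-b) <= 2^(r+2) c^2 k^q`. -/
def MNB_stmt : Prop :=
  ∀ N n k q r e : ℕ, 0 < k → N = q * n + r → (k * 2 ^ n + 1) ^ e ∣ 2 ^ N + 1 →
    1 ≤ e → e ≤ q →
    (k * 2 ^ n + 1) ^ (e - 1) ≤ 2 ^ (r + 2) * (2 ^ e * (2 * q).choose e) ^ 2 * k ^ q

/-- GEN (short). The inequality with `q = N / n`, `r = N % n`. PROOF. `2^(ne) <= (k 2^n)^e < D^e <= 2^N + 1`
(for `e >= 1`), so `2^(ne) <= 2^N`, `n e <= N`, `e <= N / n`. Then MNB. -/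
def GEN_stmt : Prop :=
  ∀ N n k e : ℕ, 0 < k → 0 < n → 1 ≤ e → (k * 2 ^ n + 1) ^ e ∣ 2 ^ N + 1 →
    e ≤ N / n ∧
    (k * 2 ^ n + 1) ^ (e - 1) ≤
      2 ^ (N % n + 2) * (2 ^ e * (2 * (N / n)).choose e) ^ 2 * k ^ (N / n)

/-- SHP (short; Mathlib only). Divisors of `2^N + 1` are `1` modulo `2^(s+1)` if `2^s ∣ N`.
PROOF. It is enough that every prime `p ∣ D` is `1` modulo `2^(s+1)` (then every divisor is, by
multiplicativity, `Nat.recOnMul` or `Nat.primeFactorsList`). `p` is odd, `2^N = -1` mod `p`; with `N = 2^s u` put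
`y = 2^u` in `ZMod p`: `y^(2^s) = -1`, so the order of `y` is `2^(s+1)` (`orderOf_eq_prime_pow`), and it
divides `p - 1` (`ZMod.orderOf_dvd_card_sub_one`). Finally `D - 1 > 0` is even: write it as `k 2^n` with `k` odd
(`Nat.exists_eq_two_pow_mul_odd`); `2^(s+1) ∣ D - 1` gives `s + 1 <= n`. -/
def SHP_stmt : Prop :=
  ∀ N s D : ℕ, 0 < N → 2 ^ s ∣ N → 1 < D → D ∣ 2 ^ N + 1 →
    ∃ k n : ℕ, Odd k ∧ s + 1 ≤ n ∧ D = k * 2 ^ n + 1

/-- EXQ (medium; real logarithms). The explicit corollary: if `D <= 2^((1+x) s)` then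
`D^e <= 2^((x + 6/s) N + 4 s + 2)`.
PROOF. `e = 0`: clear. Let `e >= 1`; `D ∣ 2^N+1` so by SHP `D = k 2^n + 1`, `n >= s+1`.
If `x >= 1`: `D^e <= 2^N + 1 <= 2^(N+1)`, clear. Let `x < 1`, so `D <= 2^(2s)` and `n <= log2 D <= 2s`.
GEN (with `q = N/n`, `e <= q`, `r < n <= 2s`, `C(2q,e) <= 2^(2q)`):
`(e-1) log2 D <= r + 2 + 2e + 4q + q log2 k <= 2s + 2 + 6q + q log2 k`. Add `log2 D <= 2s`:
`e log2 D <= 4s + 2 + 6q + q log2 k`. Here `q <= N/n <= N/s`, and `k 2^n < D <= 2^((1+x)s)` gives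
`0 <= log2 k <= (1+x)s - n`, so `q log2 k <= (N/n)((1+x)s - n) = N ((1+x)s/n - 1) <= x N` as `s <= n`. -/
def EXQ_stmt : Prop :=
  ∀ (N s D e : ℕ) (x : ℝ), 0 < N → 1 ≤ s → 2 ^ s ∣ N → 1 < D → D ^ e ∣ 2 ^ N + 1 → 0 ≤ x →
    (D : ℝ) ≤ 2 ^ ((1 + x) * s) → (D : ℝ) ^ e ≤ 2 ^ ((x + 6 / s) * N + 4 * s + 2)

/-- PRD (short-medium). The same for a product of powers of distinct primes.
PROOF. For `p` in `P`, `p^(v_p(2^N+1))` divides `2^N + 1`; apply EXQ to each factor (a prime not dividing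
`2^N+1` has exponent 0 and the factor is 1) and multiply (`Finset.prod_le_prod`, `Finset.prod_const`,
`Real.rpow_natCast`, `Real.rpow_mul`). -/
def PRD_stmt : Prop :=
  ∀ (N s : ℕ) (P : Finset ℕ) (x : ℝ), 0 < N → 1 ≤ s → 2 ^ s ∣ N → 0 ≤ x →
    (∀ p ∈ P, p.Prime ∧ (p : ℝ) ≤ 2 ^ ((1 + x) * s)) →
    ((∏ p ∈ P, p ^ (2 ^ N + 1).factorization p : ℕ) : ℝ) ≤
      2 ^ ((P.card : ℝ) * ((x + 6 / s) * N + 4 * s + 2))

end Pool.Agent.PG
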